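import Pool.Agent.Helper89.TT.Stmts3

/-!
# TAUB: from the primitive count to an asymptotic formula
-/

set_option autoImplicit false

open Finset

namespace Pool.Agent.Helper89.TT

theorem taub_tel (P : ℕ → ℕ) (hP : Monotone P) (h0 : P 0 = 0) (n : ℕ) :
    ∑ h ∈ Finset.Icc 1 n, (P h - P (h - 1)) = P n := by
  induction n with
  | zero => simp [h0]
  | succ n ih =>
    rw [Finset.sum_Icc_succ_top (by omega), ih]
    have : P n ≤ P (n + 1) := hP (Nat.le_succ n)
    show P n + (P (n + 1) - P n) = P (n + 1)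
    omega

theorem taub_swap (P : ℕ → ℕ) (hP : Monotone P) (h0 : P 0 = 0) (X : ℕ) :
    ∑ g ∈ Finset.Icc 1 X, P (X / g) =
      ∑ h ∈ Finset.Icc 1 X, (P h - P (h - 1)) * (X / h) := by
  have e1 : ∀ g ∈ Finset.Icc 1 X, P (X / g) =
      ∑ h ∈ Finset.Icc 1 X, if h * g ≤ X then P h - P (h - 1) else 0 := by
    intro g hg
    rw [Finset.mem_Icc] at hg
    rw [← taub_tel P hP h0 (X / g), ← Finset.sum_filter]
    refine Finset.sum_congr ?_ fun _ _ => rfl
    ext h
    simp only [Finset.mem_Icc, Finset.mem_filter]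
    rw [Nat.le_div_iff_mul_le (by omega)]
    constructor
    · rintro ⟨a, b⟩
      refine ⟨⟨a, le_trans ?_ b⟩, b⟩
      exact Nat.le_mul_of_pos_right h (by omega)
    · rintro ⟨⟨a, _⟩, b⟩
      exact ⟨a, b⟩
  rw [Finset.sum_congr rfl e1, Finset.sum_comm]
  refine Finset.sum_congr rfl fun h hh => ?_
  rw [Finset.mem_Icc] at hh
  rw [← Finset.sum_filter, Finset.sum_const, smul_eq_mul, mul_comm]
  congr 1
  have : (Finset.Icc 1 X).filter (fun g => h * g ≤ X) = Finset.Icc 1 (X / h) := by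
    ext g
    simp only [Finset.mem_Icc, Finset.mem_filter]
    rw [Nat.le_div_iff_mul_le (by omega), mul_comm g h]
    constructor
    · rintro ⟨⟨a, _⟩, b⟩
      exact ⟨a, b⟩
    · rintro ⟨a, b⟩
      refine ⟨⟨a, le_trans ?_ b⟩, b⟩
      exact Nat.le_mul_of_pos_left g (by omega)
  rw [this, Nat.card_Icc, Nat.add_sub_cancel]

theorem taub_abel (P : ℕ → ℕ) (hP : Monotone P) (h0 : P 0 = 0) (n : ℕ) :
    ∑ h ∈ Finset.Icc 1 n, ((P h - P (h - 1) : ℕ) : ℝ) / h =
      (P n : ℝ) / (n + 1) + ∑ h ∈ Finset.range n, (P (h + 1) : ℝ) / ((h + 1) * (h + 2)) := by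
  induction n with
  | zero => simp [h0]
  | succ n ih =>
    rw [Finset.sum_Icc_succ_top (by omega), ih, Finset.sum_range_succ]
    have h1 : P n ≤ P (n + 1) := hP (Nat.le_succ n)
    have e : ((P (n + 1) - P (n + 1 - 1) : ℕ) : ℝ) = (P (n + 1) : ℝ) - P n := by
      rw [Nat.add_sub_cancel, Nat.cast_sub h1]
    rw [e]
    have p1 : (n : ℝ) + 1 ≠ 0 := by positivity
    have p2 : (n : ℝ) + 2 ≠ 0 := by positivity
    have p3 : ((n + 1 : ℕ) : ℝ) + 1 = n + 2 := by push_cast; ring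
    rw [p3]
    push_cast
    field_simp
    ring

theorem taub_step {a u : ℝ} (ha : 0 < a) (ha1 : a < 1) (hu : 1 < u) :
    a * u ^ (-a - 1) ≤ (u - 1) ^ (-a) - u ^ (-a) := by
  have hu0 : 0 < u := by linarith
  have h1 : (1 + -(1 / u)) ^ a ≤ 1 + a * -(1 / u) := by
    refine rpow_one_add_le_one_add_mul_self ?_ ha.le ha1.le
    have : 1 / u ≤ 1 := by
      rw [div_le_one hu0]
      exact hu.le
    linarith
  have hx : 0 < 1 / u := by positivity
  have hx1 : 1 / u < 1 := by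
    rw [div_lt_one hu0]
    exact hu
  set x := 1 / u with hxd
  have h2 : 0 < 1 + -x := by linarith
  have h3 : 0 < (1 + -x) ^ a := Real.rpow_pos_of_pos h2 a
  have h4 : 1 + a * x ≤ ((1 + -x) ^ a)⁻¹ := by
    rw [le_inv_comm₀ (by positivity) h3]
    refine h1.trans ?_
    have h5 : 0 < 1 + a * -x := by nlinarith
    have h6 : 0 < 1 + a * x := by positivity
    rw [inv_eq_one_div, le_div_iff₀ h6]
    nlinarith [mul_pos ha hx]
  have e1 : u - 1 = u * (1 + -x) := by
    rw [hxd]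
    field_simp
    ring
  have e2 : (u - 1) ^ (-a) = u ^ (-a) * ((1 + -x) ^ a)⁻¹ := by
    rw [e1, Real.mul_rpow hu0.le h2.le, Real.rpow_neg h2.le]
  have e3 : u ^ (-a - 1) = u ^ (-a) * x := by
    rw [Real.rpow_sub hu0, Real.rpow_one, hxd]
    ring
  have h5 : 0 < u ^ (-a) := Real.rpow_pos_of_pos hu0 _
  rw [e2, e3]
  have := mul_le_mul_of_nonneg_left h4 h5.le
  nlinarith

theorem st_TAUB : ST_TAUB := by
  intro P C θ hP h0 hθ hθ1 hC
  have hC0 : 0 ≤ C := by
    have h := hC 1 le_rfl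
    simp only [Nat.cast_one, Real.one_rpow, mul_one] at h
    exact le_trans (Nat.cast_nonneg _) h
  set a := 1 - θ with ha
  have ha0 : 0 < a := by linarith
  have ha1 : a < 1 := by linarith
  set f : ℕ → ℝ := fun h => (P (h + 1) : ℝ) / ((h + 1) * (h + 2)) with hf
  have f0 : ∀ h, 0 ≤ f h := fun h => by
    simp only [hf]
    positivity
  -- one term
  have term : ∀ h : ℕ, 1 ≤ h → f h ≤ C / a * ((h : ℝ) ^ (-a) - ((h : ℝ) + 1) ^ (-a)) := by
    intro h hh
    have hu : (1 : ℝ) < (h : ℝ) + 1 := by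
      have : (1 : ℝ) ≤ h := by exact_mod_cast hh
      linarith
    have hu0 : (0 : ℝ) < (h : ℝ) + 1 := by linarith
    have s1 := taub_step ha0 ha1 hu
    rw [add_sub_cancel_right] at s1
    have s2 : f h ≤ C * ((h : ℝ) + 1) ^ (-a - 1) := by
      have c1 := hC (h + 1) (by omega)
      push_cast at c1
      have e : ((h : ℝ) + 1) ^ θ = ((h : ℝ) + 1) ^ (-a - 1) * (((h : ℝ) + 1) * ((h : ℝ) + 1)) := by
        have : θ = (-a - 1) + 2 := by rw [ha]; ring
        rw [this, Real.rpow_add hu0]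
        congr 1
        rw [Real.rpow_two]
        ring
      simp only [hf]
      rw [div_le_iff₀ (by positivity)]
      refine c1.trans ?_
      rw [e]
      have q : 0 ≤ ((h : ℝ) + 1) ^ (-a - 1) := (Real.rpow_pos_of_pos hu0 _).le
      have q2 : ((h : ℝ) + 1) * ((h : ℝ) + 1) ≤ ((h : ℝ) + 1) * ((h : ℝ) + 2) :=
        mul_le_mul_of_nonneg_left (by linarith) hu0.le
      have q3 := mul_le_mul_of_nonneg_left q2 (mul_nonneg hC0 q)
      calc C * (((h : ℝ) + 1) ^ (-a - 1) * (((h : ℝ) + 1) * ((h : ℝ) + 1)))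
          = C * ((h : ℝ) + 1) ^ (-a - 1) * (((h : ℝ) + 1) * ((h : ℝ) + 1)) := by ring
        _ ≤ _ := q3
    refine s2.trans ?_
    have s3 : C * ((h : ℝ) + 1) ^ (-a - 1) = C / a * (a * ((h : ℝ) + 1) ^ (-a - 1)) := by
      field_simp
    rw [s3]
    exact mul_le_mul_of_nonneg_left s1 (div_nonneg hC0 ha0.le)
  -- blocks
  have blk : ∀ X : ℕ, 1 ≤ X → ∀ n : ℕ, ∑ i ∈ Finset.range n, f (i + X) ≤
      C / a * ((X : ℝ) ^ (-a) - ((n : ℝ) + X) ^ (-a)) := by
    intro X hX n
    induction n with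
    | zero => simp
    | succ n ih =>
      rw [Finset.sum_range_succ]
      have t := term (n + X) (by omega)
      push_cast at t ⊢
      have e : (n : ℝ) + 1 + X = n + X + 1 := by ring
      rw [e]
      have : C / a * ((X : ℝ) ^ (-a) - ((n : ℝ) + X) ^ (-a))
          + C / a * (((n : ℝ) + X) ^ (-a) - ((n : ℝ) + X + 1) ^ (-a)) =
          C / a * ((X : ℝ) ^ (-a) - ((n : ℝ) + X + 1) ^ (-a)) := by ring
      linarith
  have blk' : ∀ X : ℕ, 1 ≤ X → ∀ n : ℕ, ∑ i ∈ Finset.range n, f (i + X) ≤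
      C / a * (X : ℝ) ^ (-a) := by
    intro X hX n
    refine (blk X hX n).trans (mul_le_mul_of_nonneg_left ?_ (div_nonneg hC0 ha0.le))
    have : 0 ≤ ((n : ℝ) + X) ^ (-a) := Real.rpow_nonneg (by positivity) _
    linarith
  have sumf : Summable f := by
    rw [← summable_nat_add_iff 1]
    exact summable_of_sum_range_le (fun n => f0 _) (blk' 1 le_rfl)
  refine ⟨∑' h, f h, C + C / a, tsum_nonneg f0, ⟨fun h => ?_, fun ⟨Y, hY⟩ => ?_⟩, fun X hX => ?_⟩
  · by_contra hne
    push Not at hne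
    have : ∀ h, f h = 0 := fun h => by
      have h1 : P (h + 1) = 0 := Nat.le_zero.1 (hne (h + 1))
      simp only [hf, h1]
      simp
    rw [tsum_congr this, tsum_zero] at h
    exact lt_irrefl _ h
  · obtain ⟨y, rfl⟩ : ∃ y, Y = y + 1 := by
      cases Y with
      | zero => rw [h0] at hY; exact absurd hY (lt_irrefl _)
      | succ y => exact ⟨y, rfl⟩
    have h1 : 0 < f y := by
      simp only [hf]
      have : (0 : ℝ) < P (y + 1) := by exact_mod_cast hY
      positivity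
    exact h1.trans_le (sumf.le_tsum y fun j _ => f0 j)
  · have hX0 : (0 : ℝ) < X := by exact_mod_cast hX
    -- the swapped sum
    have e1 : (∑ g ∈ Finset.Icc 1 X, (P (X / g) : ℝ)) =
        ∑ h ∈ Finset.Icc 1 X, ((P h - P (h - 1) : ℕ) : ℝ) * ((X / h : ℕ) : ℝ) := by
      have := congrArg (fun n : ℕ => (n : ℝ)) (taub_swap P hP h0 X)
      simp only [Nat.cast_sum, Nat.cast_mul] at this
      exact this
    have e2 := taub_abel P hP h0 X
    have e3 : (∑ h ∈ Finset.Icc 1 X, ((P h - P (h - 1) : ℕ) : ℝ)) = P X := by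
      have := congrArg (fun n : ℕ => (n : ℝ)) (taub_tel P hP h0 X)
      simp only [Nat.cast_sum] at this
      exact this
    -- the fractional parts
    have fr : ∀ h ∈ Finset.Icc 1 X, ((P h - P (h - 1) : ℕ) : ℝ) * ((X / h : ℕ) : ℝ) ≤
        X * (((P h - P (h - 1) : ℕ) : ℝ) / h) ∧
        X * (((P h - P (h - 1) : ℕ) : ℝ) / h) - ((P h - P (h - 1) : ℕ) : ℝ) ≤
          ((P h - P (h - 1) : ℕ) : ℝ) * ((X / h : ℕ) : ℝ) := by
      intro h hh
      rw [Finset.mem_Icc] at hh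
      have hh0 : (0 : ℝ) < h := by exact_mod_cast hh.1
      have p0 : (0 : ℝ) ≤ ((P h - P (h - 1) : ℕ) : ℝ) := Nat.cast_nonneg _
      have d1 : ((X / h : ℕ) : ℝ) ≤ X / h := Nat.cast_div_le
      have d2 : (X : ℝ) / h ≤ ((X / h : ℕ) : ℝ) + 1 := by
        rw [div_le_iff₀ hh0]
        have k : X < (X / h + 1) * h := Nat.lt_mul_of_div_lt (Nat.lt_succ_self _) hh.1
        have k' : (X : ℝ) < (((X / h : ℕ) : ℝ) + 1) * h := by exact_mod_cast k
        exact k'.le
      constructor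
      · have := mul_le_mul_of_nonneg_left d1 p0
        calc _ ≤ ((P h - P (h - 1) : ℕ) : ℝ) * ((X : ℝ) / h) := this
          _ = _ := by ring
      · have := mul_le_mul_of_nonneg_left d2 p0
        have e : X * (((P h - P (h - 1) : ℕ) : ℝ) / h) =
            ((P h - P (h - 1) : ℕ) : ℝ) * ((X : ℝ) / h) := by ring
        rw [e]
        linarith
    have u1 := Finset.sum_le_sum fun h hh => (fr h hh).1
    have u2 := Finset.sum_le_sum fun h hh => (fr h hh).2
    rw [Finset.sum_sub_distrib, e3] at u2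
    rw [← Finset.mul_sum, e2] at u1 u2
    rw [← e1] at u1 u2
    have hPX0 : (0 : ℝ) ≤ P X := Nat.cast_nonneg _
    have w1 : (X : ℝ) * ((P X : ℝ) / (X + 1)) ≤ P X := by
      rw [← mul_div_assoc, div_le_iff₀ (by positivity)]
      nlinarith
    have w0 : 0 ≤ (X : ℝ) * ((P X : ℝ) / (X + 1)) := by positivity
    -- the tail
    have tl := sumf.sum_add_tsum_nat_add X
    have tl0 : 0 ≤ ∑' i, f (i + X) := tsum_nonneg fun i => f0 _
    have tl1 : ∑' i, f (i + X) ≤ C / a * (X : ℝ) ^ (-a) :=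
      Real.tsum_le_of_sum_range_le (fun n => f0 _) (blk' X hX)
    have tl2 : X * ∑' i, f (i + X) ≤ C / a * (X : ℝ) ^ θ := by
      have e : (X : ℝ) ^ θ = X * (X : ℝ) ^ (-a) := by
        have : θ = 1 + -a := by rw [ha]; ring
        rw [this, Real.rpow_add hX0, Real.rpow_one]
      rw [e]
      have := mul_le_mul_of_nonneg_left tl1 hX0.le
      calc _ ≤ (X : ℝ) * (C / a * (X : ℝ) ^ (-a)) := this
        _ = _ := by ring
    have cX := hC X hX
    have e4 : (∑' h, f h) * X = X * (∑ h ∈ Finset.range X, f h) + X * ∑' i, f (i + X) := by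
      rw [← tl]
      ring
    have e5 : (X : ℝ) * ((P X : ℝ) / (X + 1)
        + ∑ h ∈ Finset.range X, (P (h + 1) : ℝ) / ((h + 1) * (h + 2))) =
        X * ((P X : ℝ) / (X + 1)) + X * (∑ h ∈ Finset.range X, f h) := by
      rw [mul_add]
    rw [e5] at u1 u2
    have tl3 : 0 ≤ X * ∑' i, f (i + X) := mul_nonneg hX0.le tl0
    rw [abs_le, add_mul, e4]
    constructor
    · linarith
    · linarith

end Pool.Agent.Helper89.TT
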